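import Pool.Agent.Helper23.XT.Defs

/-!
# XT-MacAlg: Mac Lane's condition from the anisotropic diagonal forms (MP_c5a4e2_lc)
-/

set_option autoImplicit false

namespace Pool.Agent.Helper93.XT

open Pool.Agent.Helper23.XT

/-- every finite family of elements of `K` is a combination, with coefficients in `K ^ p`, of
finitely many elements that are independent over `K ^ p` -/
theorem exists_pbasis {K : Type*} [Field K] {p : ℕ} (hp : p.Prime) [CharP K p] {ι : Type*}
    (t : Finset ι) (lam : ι → K) :
    ∃ (m : ℕ) (b : Fin m → K) (μ : ι → Fin m → K),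
      (∀ c : Fin m → K, ∑ j, b j * c j ^ p = 0 → c = 0) ∧
      ∀ x ∈ t, lam x = ∑ j, b j * μ x j ^ p := by
  classical
  haveI : Fact p.Prime := ⟨hp⟩
  induction t using Finset.induction_on with
  | empty =>
    exact ⟨0, Fin.elim0, fun _ => Fin.elim0, fun c _ => Subsingleton.elim _ _,
      fun x hx => absurd hx (Finset.notMem_empty x)⟩
  | insert a t _ ih =>
    obtain ⟨m, b, μ, hb, hμ⟩ := ih
    by_cases hex : ∃ c : Fin m → K, lam a = ∑ j, b j * c j ^ p
    · obtain ⟨c, hc⟩ := hex
      refine ⟨m, b, fun x => if x = a then c else μ x, hb, fun x hx => ?_⟩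
      by_cases hxa : x = a
      · subst hxa
        simpa using hc
      · simpa only [if_neg hxa] using hμ x ((Finset.mem_insert.1 hx).resolve_left hxa)
    · refine ⟨m + 1, Fin.cons (lam a) b,
        fun x => if x = a then Fin.cons 1 (fun _ => 0) else Fin.cons 0 (μ x), ?_, ?_⟩
      · intro c hc
        rw [Fin.sum_univ_succ] at hc
        simp only [Fin.cons_zero, Fin.cons_succ] at hc
        have h0 : c 0 = 0 := by
          by_contra h0
          refine hex ⟨fun j => -(c j.succ) / c 0, ?_⟩
          have h1 : ∀ j : Fin m, b j * (-(c j.succ) / c 0) ^ p =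
              -(b j * c j.succ ^ p) / c 0 ^ p := by
            intro j
            have h2 : (-(c j.succ)) ^ p = -(c j.succ ^ p) := by
              have := map_neg (frobenius K p) (c j.succ)
              simpa only [frobenius_def] using this
            rw [div_pow, h2, mul_div_assoc', mul_neg]
          simp_rw [h1]
          rw [← Finset.sum_div, Finset.sum_neg_distrib, eq_div_iff (pow_ne_zero p h0)]
          linear_combination hc
        have h1 : (fun j : Fin m => c j.succ) = 0 := by
          apply hb
          rw [h0, zero_pow hp.ne_zero, mul_zero, zero_add] at hc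
          exact hc
        funext j
        refine Fin.cases h0 (fun j => ?_) j
        exact congrFun h1 j
      · intro x hx
        rw [Fin.sum_univ_succ]
        by_cases hxa : x = a
        · subst hxa
          simp [hp.ne_zero]
        · simp only [if_neg hxa, Fin.cons_zero, Fin.cons_succ, zero_pow hp.ne_zero, mul_zero,
            zero_add]
          exact hμ x ((Finset.mem_insert.1 hx).resolve_left hxa)

/-- Mac Lane's condition from the anisotropic diagonal forms. -/
theorem maclane_of_forms {K L : Type*} [Field K] [Field L] [Algebra K L]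
    (h : ∀ p : ℕ, p.Prime → CharP K p → ∀ (m : ℕ) (b : Fin m → K),
      (∀ c : Fin m → K, ∑ j, b j * c j ^ p = 0 → c = 0) →
      ∀ G : Fin m → L, ∑ j, algebraMap K L (b j) * G j ^ p = 0 → G = 0) : MacLane K L := by
  intro p hp hch s hs
  haveI : Fact p.Prime := ⟨hp⟩
  haveI : CharP K p := hch
  haveI : CharP L p := charP_of_injective_algebraMap (algebraMap K L).injective p
  rw [linearIndepOn_finset_iff]
  rw [linearIndepOn_finset_iff] at hs
  intro lam hlam
  obtain ⟨m, b, μ, hb, hμ⟩ := exists_pbasis hp s lam
  have hsum : ∑ j, algebraMap K L (b j) * (∑ x ∈ s, μ x j • x) ^ p = 0 := by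
    rw [← hlam]
    have h1 : ∀ j, algebraMap K L (b j) * (∑ x ∈ s, μ x j • x) ^ p =
        ∑ x ∈ s, (b j * μ x j ^ p) • x ^ p := by
      intro j
      have h2 : (∑ x ∈ s, μ x j • x) ^ p = ∑ x ∈ s, (μ x j • x) ^ p := by
        have := map_sum (frobenius L p) (fun x => μ x j • x) s
        simpa only [frobenius_def] using this
      rw [h2, Finset.mul_sum]
      refine Finset.sum_congr rfl fun x _ => ?_
      rw [smul_pow, mul_smul, Algebra.smul_def (b j)]
    simp_rw [h1]
    rw [Finset.sum_comm]
    refine Finset.sum_congr rfl fun x hx => ?_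
    rw [← Finset.sum_smul, ← hμ x hx]
  have h1 := h p hp hch m b hb (fun j => ∑ x ∈ s, μ x j • x) hsum
  intro x hx
  rw [hμ x hx]
  refine Finset.sum_eq_zero fun j _ => ?_
  have h2 : μ x j = 0 := hs (fun x => μ x j) (congrFun h1 j) x hx
  rw [h2, zero_pow hp.ne_zero, mul_zero]

end Pool.Agent.Helper93.XT
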